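import Pool.Agent.helper11.VDI.SpecU
import Pool.Agent.helper48.VD.BC2D

/-!
# Project INF (MP_07c750_an), version B, row BC2U: Borel-Cantelli for families, uniform on compact sets of parameters
-/

set_option autoImplicit false

open scoped ContDiff Topology InnerProductSpace ENNReal ComplexConjugate
open MeasureTheory Filter Set

namespace Pool.Agent.VDI

open Pool.Agent.RPQ (PN PJ UN upd IsOp)
open Pool.Agent.VQ (CH AdZ perZ rk)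
open Pool.Agent.VN (aN)
open Pool.Agent.VD
open Pool.Agent.VDE (UWLD FDX)

noncomputable section

variable {d : ℕ}

/-- two nearby parameters and two nearby functions -/
theorem BC2U_two {n : ℕ} (f g : V d → ℝ) (G G' : V d → V d →L[ℝ] V d) (x : V d) (a b : ℝ) (hf : ContDiff ℝ ∞ f)
    (hg : ContDiff ℝ ∞ g) (hG : ContDiff ℝ ∞ G) (hG' : ContDiff ℝ ∞ G')
    (h1 : ‖iteratedFDeriv ℝ n (fun y => Real.exp (f y) • (G y - G' y)) x‖ ≤ a)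
    (h2 : ‖iteratedFDeriv ℝ n (fun y => cfm f G' y - cfm g G' y) x‖ ≤ b) :
    ‖iteratedFDeriv ℝ n (fun y => cfm f G y - cfm g G' y) x‖ ≤ a + b := by
  have e : (fun y => cfm f G y - cfm g G' y) = (fun y => Real.exp (f y) • (G y - G' y)) + fun y => cfm f G' y - cfm g G' y := by
    funext y
    simp only [Pi.add_apply]
    unfold cfm
    rw [smul_sub]
    abel
  have c1 : ContDiff ℝ n (fun y => Real.exp (f y) • (G y - G' y)) := by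
    have := (hf.exp.smul (hG.sub hG'))
    exact this.of_le (by exact_mod_cast le_top)
  have c2 : ContDiff ℝ n (fun y => cfm f G' y - cfm g G' y) := by
    have := ((hf.exp.smul hG').sub (hg.exp.smul hG'))
    exact this.of_le (by exact_mod_cast le_top)
  rw [e, iteratedFDeriv_add_apply c1.contDiffAt c2.contDiffAt]
  exact (norm_add_le _ _).trans (add_le_add h1 h2)

theorem BC2U_proof (hIUWD : VD.IUWD_stmt) (hSED : VD.SED_stmt) (hPODU : PODU_stmt) (hCFC : VD.CFC_stmt) (hFBL : FBL_stmt)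
    (hLBZ : LBZ_stmt) (hNNC : VD.NNC_stmt) (hMVE : VD.MVE_stmt) (hRSM : RPQ.RSM_stmt) : BC2U_stmt := by
  intro d Γ _ _ K F0 Cn k0 J p χ m0 Gs h2d hFd hFX hFam hSF hBCP h e hTD he
  obtain ⟨hP, hone, -⟩ := hRSM
  have := hP
  obtain ⟨hS1, hS2⟩ := hSED d Γ K Cn k0 J p χ hFd hFam
  choose b hb using fun m : ℕ => (hS2 (Metric.closedBall (0 : V d) m) (isCompact_closedBall _ _)).1
  choose B hPot using fun S1 : ℕ => hPODU d Γ K m0 Gs b (S1 : ℝ) hFd hSF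
  obtain ⟨hCm, hCb⟩ := hCFC d
  obtain ⟨CN, hCN, hNN⟩ := hNNC d
  choose v0 hv0 hbad using fun q : ℕ × ℕ => hBCP (1 / ((q.2 + 1 : ℕ) : ℝ)) (B q.1) (q.1 : ℝ) h (e / 2) (Nat.cast_nonneg _) hTD (half_pos he)
  -- the conclusion for one pair of parameters
  have key : ∀ a : (ℕ × ℕ) × ℕ, ∀ᵐ ζ ∂PN, ∃ I1 : ℕ, ∀ i : ℕ, I1 ≤ i → ∃ (K' : ℕ) (v : (ℕ × ℕ → ℝ) → ℕ × ℕ → ℝ),
      2 ^ K' ≤ Real.sqrt i ∧ Real.sqrt i ≤ 2 ^ (K' + 1) ∧ (∀ ζ q, |v ζ q| ≤ 1) ∧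
      (∀ ζ : ℕ × ℕ → ℝ, (∀ q, |ζ q| ≤ 1) → ∀ q : ℕ × ℕ, q.1 ≤ 4 * K' → q.1 ≠ K' → q.2 < J q.1 → |v ζ q - ζ q| ≤ Real.sqrt i ^ (-10 : ℝ)) ∧
      ((∀ q, |ζ q| ≤ 1) → ∀ s : V m0, ‖s‖ ≤ (a.1.1 : ℝ) → Cls Γ K (1 / ((a.1.2 + 1 : ℕ) : ℝ)) (B a.1.1) (cfm (bD χ K' (v ζ)) (Gs s)) →
        (∀ Φ : ℝ → P d → P d, IsFlow (cfm (bD χ K' (v ζ)) (Gs s)) Φ → UWLD F0 (cfm (bD χ K' (v ζ)) (Gs s)) Φ h (e / 2 / 1600) (v0 a.1) ((a.2 + 1 : ℕ) : ℝ)) →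
        ∀ (μ : ℝ) (φ : V d → ℂ), 0 < μ → |Real.sqrt μ - Real.sqrt i| ≤ Real.sqrt i ^ (-(1 / 100) : ℝ) →
          Eigenfunction Γ (cfm (rD χ ζ) (Gs s)) μ φ →
            |(∫ x in F0, h x * ‖φ x‖ ^ 2 ∂mv (cfm (bD χ K' (v ζ)) (Gs s))) - mean (cfm (bD χ K' (v ζ)) (Gs s)) F0 h * nn (cfm (bD χ K' (v ζ)) (Gs s)) F0 φ| ≤
              e / 2 * nn (cfm (bD χ K' (v ζ)) (Gs s)) F0 φ) := by
    intro a
    obtain ⟨i0, hi0⟩ := hbad a.1 ((a.2 + 1 : ℕ) : ℝ) (by push_cast; linarith [(Nat.cast_nonneg a.2 : (0 : ℝ) ≤ a.2)])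
    choose K' v hKv using fun j : ℕ => hi0 (i0 + 1 + j) (by omega)
    have hae := ae_eventually_notMem (VN.BC2N_sum i0 _ (fun j => (hKv j).2.2.2.2))
    filter_upwards [hae] with ζ hζ
    obtain ⟨J1, hJ1⟩ := eventually_atTop.1 hζ
    refine ⟨i0 + 1 + J1, fun i hi => ?_⟩
    obtain ⟨j, rfl⟩ : ∃ j, i = i0 + 1 + j := ⟨i - (i0 + 1), by omega⟩
    refine ⟨K' j, v j, (hKv j).1, (hKv j).2.1, (hKv j).2.2.1, (hKv j).2.2.2.1, ?_⟩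
    intro h1 s hsS hpot h2 μ φ hμ1 hμ2 hμ3
    by_contra hcon
    rw [not_le] at hcon
    exact hJ1 j (by omega) ⟨h1, s, hsS, hpot, h2, μ, φ, hμ1, hμ2, hμ3, hcon⟩
  filter_upwards [ae_all_iff.2 key, hone] with ζ hζ h1
  intro S hSc hneg
  obtain ⟨S1, hS1p⟩ : ∃ S1 : ℕ, ∀ s ∈ S, ‖s‖ ≤ (S1 : ℝ) := by
    obtain ⟨r, hr⟩ := hSc.isBounded.exists_norm_le
    obtain ⟨n, hn⟩ := exists_nat_ge r
    exact ⟨n, fun s hs => (hr s hs).trans hn⟩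
  obtain ⟨s1, s2, -⟩ := hS1 ζ h1
  have hbζ : ∀ (m n : ℕ) (x : V d), ‖x‖ ≤ m → ‖iteratedFDeriv ℝ n (rD χ ζ) x‖ ≤ b m n := fun m n x hx =>
    (hb m ζ h1 n).1 x (by rwa [mem_closedBall_zero_iff])
  obtain ⟨bF, bF1, bF2, bF3, bF4⟩ := hFBL d m0 Gs (S1 : ℝ) hSF.smooth hSF.met
  refine hSc.induction_on (p := fun A : Set (V m0) => ∃ r1 : ℝ, 0 < r1 ∧ ∀ s ∈ A, ∀ (μ : ℝ) (φ : V d → ℂ), r1 ≤ μ → Eigenfunction Γ (cfm (rD χ ζ) (Gs s)) μ φ →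
      |(∫ x in F0, h x * ‖φ x‖ ^ 2 ∂mv (cfm (rD χ ζ) (Gs s))) - mean (cfm (rD χ ζ) (Gs s)) F0 h * nn (cfm (rD χ ζ) (Gs s)) F0 φ| ≤ e * nn (cfm (rD χ ζ) (Gs s)) F0 φ) ?_ ?_ ?_ ?_
  · exact ⟨1, one_pos, fun s hs => absurd hs (Set.notMem_empty s)⟩
  · rintro A A' hAA ⟨r1, hr1, hA⟩
    exact ⟨r1, hr1, fun s hs => hA s (hAA hs)⟩
  · rintro A A' ⟨r1, hr1, hA⟩ ⟨r2, hr2, hA'⟩
    refine ⟨max r1 r2, lt_of_lt_of_le hr1 (le_max_left _ _), fun s hs μ φ hμ hE => ?_⟩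
    rcases hs with hs | hs
    · exact hA s hs μ φ ((le_max_left _ _).trans hμ) hE
    · exact hA' s hs μ φ ((le_max_right _ _).trans hμ) hE
  intro sp0 hsp0
  have hS10 : ‖sp0‖ ≤ (S1 : ℝ) := hS1p sp0 hsp0
  obtain ⟨q, s, hq, hs, hPG⟩ := hPot S1 sp0 hS10 (rD χ ζ) s1 s2 hbζ (hneg sp0 hsp0)
  obtain ⟨q1, rfl⟩ : ∃ q1, q = q1 + 1 := ⟨q - 1, by omega⟩
  have hGζ := hPG sp0 hS10 (by rw [sub_self, norm_zero]; exact hs.le) (rD χ ζ) s1 s2 hbζ (fun n _ => VD.BC2D_zero K n _ s hs.le)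
  obtain ⟨T0, m, s', hT0, hs', hUW⟩ := hIUWD d Γ K F0 _ (B S1) (cfm (rD χ ζ) (Gs sp0)) h (e / 2 / 1600) (v0 (S1, q1)) h2d hFd hFX hGζ hTD (by positivity) (hv0 (S1, q1))
  obtain ⟨I1, hI1⟩ := hζ ((S1, q1), T0 - 1)
  -- bounds on the ball of radius `m`
  obtain ⟨M, hMd⟩ : ∃ M, M = 1 + |b m 0| + |b m 1| + |bF m 0| + |bF m 1| := ⟨_, rfl⟩
  have hMb : ∀ i ≤ 1, b m i ≤ M ∧ bF m i ≤ M := by
    intro i hi
    have g1 := le_abs_self (b m 0)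
    have g2 := le_abs_self (b m 1)
    have g3 := le_abs_self (bF m 0)
    have g4 := le_abs_self (bF m 1)
    have g5 := abs_nonneg (b m 0)
    have g6 := abs_nonneg (b m 1)
    have g7 := abs_nonneg (bF m 0)
    have g8 := abs_nonneg (bF m 1)
    interval_cases i
    · constructor <;> linarith
    · constructor <;> linarith
  have hM1 : 1 ≤ M := by
    have g5 := abs_nonneg (b m 0)
    have g6 := abs_nonneg (b m 1)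
    have g7 := abs_nonneg (bF m 0)
    have g8 := abs_nonneg (bF m 1)
    linarith
  obtain ⟨Ca, hCa, hCa'⟩ := hCb 0 M hM1
  obtain ⟨Cc, hCc, hCc'⟩ := hCb 1 M hM1
  obtain ⟨La, hLa, hLa'⟩ := hLBZ d 0 M hM1
  obtain ⟨Lc, hLc, hLc'⟩ := hLBZ d 1 M hM1
  obtain ⟨s3, hs3d⟩ : ∃ s3, s3 = min 1 (s' / 2 / (Ca + Cc)) := ⟨_, rfl⟩
  have hCac : 0 < Ca + Cc := by linarith
  have hs3 : 0 < s3 := by rw [hs3d]; exact lt_min one_pos (div_pos (half_pos hs') hCac)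
  have hs31 : s3 ≤ 1 := by rw [hs3d]; exact min_le_left _ _
  have hs32 : (Ca + Cc) * s3 ≤ s' / 2 := by
    rw [hs3d]
    calc (Ca + Cc) * min 1 (s' / 2 / (Ca + Cc)) ≤ (Ca + Cc) * (s' / 2 / (Ca + Cc)) := mul_le_mul_of_nonneg_left (min_le_right _ _) hCac.le
      _ = s' / 2 := by field_simp
  have hLac : 0 < (La + Lc) * M := mul_pos (by linarith) (by linarith)
  obtain ⟨δ, hδd⟩ : ∃ δ, δ = min s (s' / 2 / ((La + Lc) * M)) := ⟨_, rfl⟩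
  have hδ : 0 < δ := by rw [hδd]; exact lt_min hs (div_pos (half_pos hs') hLac)
  have hδs : δ ≤ s := by rw [hδd]; exact min_le_left _ _
  have hδ2 : (La + Lc) * (M * δ) ≤ s' / 2 := by
    rw [hδd]
    calc (La + Lc) * (M * min s (s' / 2 / ((La + Lc) * M))) = (La + Lc) * M * min s (s' / 2 / ((La + Lc) * M)) := by ring
      _ ≤ (La + Lc) * M * (s' / 2 / ((La + Lc) * M)) := mul_le_mul_of_nonneg_left (min_le_right _ _) hLac.le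
      _ = s' / 2 := by field_simp
  obtain ⟨η, hηd⟩ : ∃ η, η = min 1 (e / (2 * (3 + e)) / CN) := ⟨_, rfl⟩
  have hCN0 : 0 < CN := by linarith
  have hη : 0 < η := by rw [hηd]; exact lt_min one_pos (by positivity)
  have hη1 : η ≤ 1 := by rw [hηd]; exact min_le_left _ _
  have hη2 : CN * η ≤ e / (2 * (3 + e)) := by
    rw [hηd]
    calc CN * min 1 (e / (2 * (3 + e)) / CN) ≤ CN * (e / (2 * (3 + e)) / CN) := mul_le_mul_of_nonneg_left (min_le_right _ _) hCN0.le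
      _ = _ := by field_simp
  obtain ⟨Ka, hKa⟩ := (hS2 K hFd.compact).2 2 (min s η) (lt_min hs hη)
  obtain ⟨Kb, hKb⟩ := (hS2 (Metric.closedBall (0 : V d) m) (isCompact_closedBall _ _)).2 1 s3 hs3
  obtain ⟨K0, hK0d⟩ : ∃ K0, K0 = max Ka Kb := ⟨_, rfl⟩
  refine ⟨Metric.ball sp0 δ ∩ S, inter_mem (mem_nhdsWithin_of_mem_nhds (Metric.ball_mem_nhds sp0 hδ)) self_mem_nhdsWithin, ?_⟩
  -- the threshold
  refine ⟨max (max 1 ((I1 : ℝ) + 1)) ((2 : ℝ) ^ (2 * K0) + 2), lt_of_lt_of_le one_pos ((le_max_left _ _).trans (le_max_left _ _)), ?_⟩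
  intro sp hsp μ φ hμ hE
  have hspδ : ‖sp - sp0‖ ≤ δ := by
    have := hsp.1
    rw [Metric.mem_ball, dist_eq_norm] at this
    exact this.le
  have hspS : ‖sp‖ ≤ (S1 : ℝ) := hS1p sp hsp.2
  have hG0 : IsMetric (Gs sp) := hSF.met sp
  have hG00 : IsMetric (Gs sp0) := hSF.met sp0
  have hμ1 : 1 ≤ μ := ((le_max_left _ _).trans (le_max_left _ _)).trans hμ
  have hμ2 : (I1 : ℝ) + 1 ≤ μ := ((le_max_right _ _).trans (le_max_left _ _)).trans hμ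
  have hμ3 : (2 : ℝ) ^ (2 * K0) + 2 ≤ μ := (le_max_right _ _).trans hμ
  have hfl : μ < (⌊μ⌋₊ : ℕ) + 1 := Nat.lt_floor_add_one μ
  have hi1 : I1 ≤ ⌊μ⌋₊ := Nat.le_floor (by linarith)
  have hi2 : (2 : ℝ) ^ (2 * K0) < ((⌊μ⌋₊ : ℕ) : ℝ) := by linarith
  have hi3 : (1 : ℝ) ≤ ((⌊μ⌋₊ : ℕ) : ℝ) := by
    have : (1 : ℝ) ≤ 2 ^ (2 * K0) := one_le_pow₀ (by norm_num)
    linarith
  obtain ⟨K', v, hK1, hK2, hv1, hv, hgood⟩ := hI1 ⌊μ⌋₊ hi1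
  have hsq1 : 1 ≤ Real.sqrt (⌊μ⌋₊ : ℕ) := Real.one_le_sqrt.2 hi3
  have hKK : K0 ≤ K' := by
    have h3 : (2 : ℝ) ^ K0 < Real.sqrt (⌊μ⌋₊ : ℕ) := by
      rw [Real.lt_sqrt (by positivity), ← pow_mul, mul_comm K0 2]
      exact hi2
    have h4 : (2 : ℝ) ^ K0 < 2 ^ (K' + 1) := lt_of_lt_of_le h3 hK2
    have h5 := (pow_lt_pow_iff_right₀ (by norm_num : (1 : ℝ) < 2)).1 h4
    omega
  have hm0 : 0 < Real.sqrt (⌊μ⌋₊ : ℕ) ^ (-10 : ℝ) := Real.rpow_pos_of_pos (by linarith) _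
  have hm1 : Real.sqrt (⌊μ⌋₊ : ℕ) ^ (-10 : ℝ) ≤ 1 / 2 ^ K' := by
    have e1 : Real.sqrt (⌊μ⌋₊ : ℕ) ^ (-10 : ℝ) ≤ Real.sqrt (⌊μ⌋₊ : ℕ) ^ (-1 : ℝ) :=
      Real.rpow_le_rpow_of_exponent_le hsq1 (by norm_num)
    refine e1.trans ?_
    rw [Real.rpow_neg_one, one_div]
    exact inv_anti₀ (by positivity) hK1
  have hKaK : Ka ≤ K' := (le_max_left Ka Kb).trans (by rw [← hK0d]; exact hKK)
  have hKbK : Kb ≤ K' := (le_max_right Ka Kb).trans (by rw [← hK0d]; exact hKK)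
  have hclK := hKa K' ζ (v ζ) (Real.sqrt (⌊μ⌋₊ : ℕ) ^ (-10 : ℝ)) hKaK h1 hm0 hm1 (hv ζ h1)
  have hclB := hKb K' ζ (v ζ) (Real.sqrt (⌊μ⌋₊ : ℕ) ^ (-10 : ℝ)) hKbK h1 hm0 hm1 (hv ζ h1)
  obtain ⟨t1, t2, -, -⟩ := (hS1 (v ζ) (hv1 ζ)).2.2 K'
  have hbv : ∀ (m n : ℕ) (x : V d), ‖x‖ ≤ m → ‖iteratedFDeriv ℝ n (bD χ K' (v ζ)) x‖ ≤ b m n := fun m n x hx =>
    (hb m (v ζ) (hv1 ζ) n).2 K' x (by rwa [mem_closedBall_zero_iff])
  have hGv := hPG sp hspS (hspδ.trans hδs) (bD χ K' (v ζ)) t1 t2 hbv (fun n hn x hx => (hclK n hn x hx).trans (min_le_left _ _))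
  have hGvm : IsMetric (cfm (bD χ K' (v ζ)) (Gs sp)) := hCm _ _ t1 hG0
  -- the inequality for the truncated metric
  have hmain := hgood h1 sp hspS hGv (by
    intro Φ hΦ
    have hclose : ∀ (n : ℕ) (x : V d), n ≤ 1 → ‖x‖ ≤ m → ‖iteratedFDeriv ℝ n (fun y => cfm (rD χ ζ) (Gs sp0) y - cfm (bD χ K' (v ζ)) (Gs sp) y) x‖ ≤ s' := by
      intro n x hn hx
      have hx' : x ∈ Metric.closedBall (0 : V d) (m : ℝ) := by rwa [mem_closedBall_zero_iff]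
      have hbd : ∀ i ≤ n, ‖iteratedFDeriv ℝ i (rD χ ζ) x‖ ≤ M ∧ ‖iteratedFDeriv ℝ i (bD χ K' (v ζ)) x‖ ≤ M ∧ ‖iteratedFDeriv ℝ i (Gs sp) x‖ ≤ M := by
        intro i hi
        have hi' : i ≤ 1 := hi.trans hn
        exact ⟨(hbζ m i x hx).trans (hMb i hi').1, (hbv m i x hx).trans (hMb i hi').1, (bF2 m i sp x hspS hx).trans (hMb i hi').2⟩
      have hbd2 : ∀ i ≤ n, ‖iteratedFDeriv ℝ i (rD χ ζ) x‖ ≤ M ∧ ‖iteratedFDeriv ℝ i (fun y => Gs sp0 y - Gs sp y) x‖ ≤ M * δ := by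
        intro i hi
        have hi' : i ≤ 1 := hi.trans hn
        refine ⟨(hbζ m i x hx).trans (hMb i hi').1, (bF4 m i sp0 sp x hS10 hspS hx).trans ?_⟩
        rw [norm_sub_rev]
        exact mul_le_mul (hMb i hi').2 hspδ (norm_nonneg _) (by linarith)
      have hdf : ∀ i ≤ n, ‖iteratedFDeriv ℝ i (fun y => rD χ ζ y - bD χ K' (v ζ) y) x‖ ≤ s3 := fun i hi => hclB i (hi.trans hn) x hx'
      have hMδ : 0 ≤ M * δ := mul_nonneg (by linarith) hδ.le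
      interval_cases n
      · have g := (hCa' (rD χ ζ) (bD χ K' (v ζ)) (Gs sp) x s3 s1 t1 hG0 hs3.le hs31 hbd).2 hdf
        have g' := hLa' (rD χ ζ) (fun y => Gs sp0 y - Gs sp y) x (M * δ) s1 (hG00.smooth.sub hG0.smooth) hMδ hbd2
        refine (BC2U_two (rD χ ζ) (bD χ K' (v ζ)) (Gs sp0) (Gs sp) x _ _ s1 t1 hG00.smooth hG0.smooth g' g).trans ?_
        nlinarith
      · have g := (hCc' (rD χ ζ) (bD χ K' (v ζ)) (Gs sp) x s3 s1 t1 hG0 hs3.le hs31 hbd).2 hdf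
        have g' := hLc' (rD χ ζ) (fun y => Gs sp0 y - Gs sp y) x (M * δ) s1 (hG00.smooth.sub hG0.smooth) hMδ hbd2
        refine (BC2U_two (rD χ ζ) (bD χ K' (v ζ)) (Gs sp0) (Gs sp) x _ _ s1 t1 hG00.smooth hG0.smooth g' g).trans ?_
        nlinarith
    have hU := hUW _ Φ hGvm hΦ hclose
    have hT : ((T0 - 1 + 1 : ℕ) : ℝ) = (T0 : ℝ) := by rw [Nat.sub_add_cancel hT0]
    show UWLD F0 (cfm (bD χ K' (v ζ)) (Gs sp)) Φ h (e / 2 / 1600) (v0 (S1, q1)) ((T0 - 1 + 1 : ℕ) : ℝ)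
    rw [hT]
    exact hU) μ φ (by linarith) (VN.BC2N_floor μ hμ1) hE
  -- comparison of the two metrics
  obtain ⟨rK, hrK⟩ := hFd.compact.isBounded.exists_norm_le
  have hfη : ∀ x, |rD χ ζ x - bD χ K' (v ζ) x| ≤ η := by
    intro x
    obtain ⟨γ, hγ⟩ := hFd.cover x
    have g := (hclK 0 (by norm_num) (γ • x) hγ).trans (min_le_right _ _)
    rw [norm_iteratedFDeriv_zero, Real.norm_eq_abs, s2 γ x, t2 γ x] at g
    exact g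
  obtain ⟨n1, n2, n3⟩ := hNN (cfm (bD χ K' (v ζ)) (Gs sp)) (fun x => rD χ ζ x - bD χ K' (v ζ) x) h φ F0 rK η hGvm (s1.sub t1) hη.le hη1 hfη
    hFX.meas (fun x hx => hrK x (hFX.sub hx)) hE.1.continuous hTD.smooth.continuous hTD.bd
  rw [VD.BC2D_cfm] at n1 n2 n3
  have hmn := (hMVE d (cfm (rD χ ζ) (Gs sp)) (hCm _ _ s1 hG0)).2.2.2.2 F0 h hFX.meas hTD.bd
  exact VD.BC2D_real he hCN hη.le hη2 n1 n2 n3 hmn (integral_nonneg fun x => by positivity) hmain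

end

end Pool.Agent.VDI
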